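import Pool.Agent.H97.PR.Targets

/-!
# MP_c62aed_lc, resolution over parities: row LEF, leaves have small potential
-/

set_option autoImplicit false

namespace Pool.Agent.H34.PRY

open Finset Pool.Agent.H97.PR

lemma cnt_pos {n : ℕ} {p : E n → Prop} (h : 0 < cnt p) : ∃ x, p x := by
  classical
  unfold cnt at h
  obtain ⟨x, hx⟩ := card_pos.1 h
  have h1 := hx
  simp only [mem_filter] at h1
  exact ⟨x, h1.2⟩

theorem pf_LEF (hR : T_RKC) (hA : T_ADS) : T_LEF := by
  classical
  intro n N k m blk γ B D q σ g F G hE a V Cl A hSt hsub hLf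
  by_contra hcon
  have hcon' : γ * N + B * q < dm V + γ * Cl.card := not_le.1 hcon
  have h4 := (hR n N blk V Cl).2.2.2.1 B hE.hi hSt.zr
  have hcN : Cl.card ≤ N := by
    have := card_le_univ Cl
    rwa [Fintype.card_fin] at this
  have hγ : γ * Cl.card ≤ γ * N := Nat.mul_le_mul_left γ hcN
  have hB : B * (q + Cl.card) < B * N := by
    rw [mul_add]
    omega
  have hq : q + Cl.card < N := lt_of_mul_lt_mul_left hB (Nat.zero_le B)
  have hpar := hE.par
  obtain ⟨T0, hT0, hF⟩ := hLf
  set U : Finset (Fin N) := T0.biUnion (fun c => univ.image (fun i => (F c i).1)) with hU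
  have hUc : U.card ≤ k * σ := by
    have h1 : U.card ≤ T0.card * k := by
      refine card_biUnion_le_card_mul _ _ _ fun c _ => ?_
      refine card_image_le.trans ?_
      rw [card_univ, Fintype.card_fin]
    calc U.card ≤ T0.card * k := h1
      _ ≤ σ * k := Nat.mul_le_mul_right k hT0
      _ = k * σ := Nat.mul_comm _ _
  set T : Finset (Fin N) := U \ Cl with hT
  have hTc : (Cl ∪ T).card ≤ D := by
    have h1 := card_union_le Cl T
    have h2 : T.card ≤ U.card := card_le_card sdiff_subset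
    omega
  obtain ⟨y', hy1, hy2⟩ := hA N k m F D G hE.adv Cl T (gv g a) hTc hSt.good
  have hgd := hE.gd V a T y' (by
    intro J' hJ' _
    have hd : Disjoint J' Cl := disjoint_of_subset_left hJ' sdiff_disjoint
    exact (hSt.rk J' hd).trans (Nat.le_succ _))
  have hpos : 0 < cnt (fun x => x - a ∈ V ∧ ∀ v ∈ T, gv g x v = y' v) := by
    rcases Nat.eq_zero_or_pos (cnt (fun x => x - a ∈ V ∧ ∀ v ∈ T, gv g x v = y' v)) with h0 | h0
    · rw [h0, mul_zero] at hgd
      exact absurd hgd (not_le.2 (pow_pos (by norm_num) _))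
    · exact h0
  obtain ⟨x, hxV, hxT⟩ := cnt_pos hpos
  obtain ⟨c, hc, hfal⟩ := hF x (hsub hxV)
  have hxy : ∀ u ∈ Cl ∪ T, gv g x u = y' u := by
    intro u hu
    rcases mem_union.1 hu with h1 | h1
    · rw [hy1 u h1]
      unfold gv
      congr 1
      funext i
      have h2 : (x - a) i.1 = 0 := hSt.zr hxV i.1 (by rw [i.2]; exact h1)
      exact sub_eq_zero.1 h2
    · exact hxT u h1
  have hG := hE.adv.cong (Cl ∪ T) y' (gv g x) hxy hy2
  have hmem : ∀ i, (F c i).1 ∈ Cl ∪ T := by
    intro i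
    by_cases h1 : (F c i).1 ∈ Cl
    · exact mem_union_left _ h1
    · refine mem_union_right _ (mem_sdiff.2 ⟨?_, h1⟩)
      exact mem_biUnion.2 ⟨c, hc, mem_image.2 ⟨i, mem_univ _, rfl⟩⟩
  obtain ⟨i, hi⟩ := hE.adv.ok (Cl ∪ T) (gv g x) c hG hmem
  exact hfal (F c i) (mem_image.2 ⟨i, mem_univ _, rfl⟩) hi

end Pool.Agent.H34.PRY
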